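import Pool.Agent.Run7.h260.TW.Tow

/-!
# Images of towers: the equivalences
-/

set_option autoImplicit false
set_option linter.overlappingInstances false
set_option linter.unusedSectionVars false

open FF Pool.Agent.W602.GT
open Pool.Agent.W619.PQ (IsUniruled)
open Pool.Agent.W619.TW (IsUnirational)
open Pool.Agent.R882.Over (GenusZero)

namespace Pool.Agent.Run7.h260.TW

section

variable {L : Type} [Field L] [Algebra ℂ L] {n : ℕ}

theorem tfae_uniruled [Algebra.EssFiniteType ℂ L] (hL : Algebra.trdeg ℂ L = n)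
    (hmain : GenusZero L n → IsUniruled ℂ L n) :
    [GenusZero L n, ¬ KodGe ℂ L n (fun _ => False) 0, ¬ Psef ℂ L n (fun _ => False),
      IsUniruled ℂ L n].TFAE := by
  tfae_have 1 → 4 := hmain
  tfae_have 4 → 3 := fun h h' =>
    (Pool.Agent.W619.Y.uniruled_neg n hL h).1 ((Pool.Agent.TH466.QG.psef_iff n).1 h')
  tfae_have 3 → 2 := fun h h' => h (psef_of_kodGe h')
  tfae_have 2 → 1 := by
    intro h ω hω hreg D
    by_contra hne
    refine h ⟨1, one_pos, fun _ => ω, fun _ => ⟨hω, fun P hP D' hD' => ?_, fun P hP _ => hreg P hP⟩,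
      D, hne, ?_⟩
    · exact hreg P hP D' fun i => Pool.Agent.TH466.QG.derReg_of_log (hD' i)
    · exact algebraicIndependent_empty_type
  tfae_finish

theorem not_gt_of_uniruled [Algebra.EssFiniteType ℂ L] (hL : Algebra.trdeg ℂ L = n)
    (h1 : IsUniruled ℂ L n) : ¬ GeneralType ℂ L n := by
  intro hgt
  exact (Pool.Agent.W619.Y.uniruled_neg n hL h1).1 ((Pool.Agent.TH466.QG.psef_iff n).1
    (psef_of_kodGe (Pool.Agent.R882.WR.kod_of_gt hgt)))

end

section

variable {n : ℕ} {K : Type} [Field K] [Algebra ℂ K] [Algebra.EssFiniteType ℂ K]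
  (L : Type) [Field L] [Algebra ℂ L] [Algebra L K] [IsScalarTower ℂ L K] [FiniteDimensional L K]

theorem genus_uniruled (hn : 1 ≤ n) (hK : Algebra.trdeg ℂ K = n) {c s : ℕ} (hc : 2 ≤ c)
    (hs : Module.finrank L K ≤ s) (h : Tower c n (fun E _ _ => IsUniruled ℂ E n) K s) :
    [GenusZero L n, ¬ KodGe ℂ L n (fun _ => False) 0, ¬ Psef ℂ L n (fun _ => False),
      IsUniruled ℂ L n].TFAE := by
  have hess : Algebra.EssFiniteType ℂ L := Pool.Agent.TH466.QG.ess_below (K := K)
  exact tfae_uniruled (Pool.Agent.Y184.NT.trdeg_below (K := K) hK)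
    ((tower_aux hn (goodBase_uniruled hn) h inferInstance hK L).1 hc hs)

theorem genus_unirational (hn : 1 ≤ n) (hK : Algebra.trdeg ℂ K = n) {c s : ℕ} (hc : 2 ≤ c)
    (hs : Module.finrank L K ≤ s) (h : Tower c n (fun E _ _ => IsUnirational ℂ E n) K s) :
    [GenusZero L n, ¬ KodGe ℂ L n (fun _ => False) 0, ¬ Psef ℂ L n (fun _ => False),
      IsUniruled ℂ L n, IsUnirational ℂ L n].TFAE := by
  have hess : Algebra.EssFiniteType ℂ L := Pool.Agent.TH466.QG.ess_below (K := K)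
  have hL := Pool.Agent.Y184.NT.trdeg_below (L := L) (K := K) hK
  have h1 := (tower_aux hn (goodBase_unirational n) h inferInstance hK L).1 hc hs
  have h2 := tfae_uniruled hL fun h => Pool.Agent.R882.HQ.uniruled_of_unirational hn (h1 h)
  tfae_have 1 ↔ 2 := h2.out 0 1
  tfae_have 1 ↔ 3 := h2.out 0 2
  tfae_have 1 ↔ 4 := h2.out 0 3
  tfae_have 1 → 5 := h1
  tfae_have 5 → 4 := fun h => Pool.Agent.R882.HQ.uniruled_of_unirational hn h
  tfae_finish

theorem gt_uniruled (hn : 1 ≤ n) (hK : Algebra.trdeg ℂ K = n) {c : ℕ} (hc : 3 ≤ c) {s : ℕ}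
    (hs : 2 * Module.finrank L K ≤ s) (h : Tower c n (fun E _ _ => IsUniruled ℂ E n) K s) :
    [¬ GeneralType ℂ L n, GenusZero L n, ¬ KodGe ℂ L n (fun _ => False) 0,
      ¬ Psef ℂ L n (fun _ => False), IsUniruled ℂ L n].TFAE := by
  have hess : Algebra.EssFiniteType ℂ L := Pool.Agent.TH466.QG.ess_below (K := K)
  have hL := Pool.Agent.Y184.NT.trdeg_below (L := L) (K := K) hK
  have h2 := genus_uniruled L hn hK (c := c) (s := s) (by omega) (by omega) h
  tfae_have 2 ↔ 3 := h2.out 0 1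
  tfae_have 2 ↔ 4 := h2.out 0 2
  tfae_have 2 ↔ 5 := h2.out 0 3
  tfae_have 1 → 5 := (tower_aux hn (goodBase_uniruled hn) h inferInstance hK L).2 hc hs
  tfae_have 5 → 1 := not_gt_of_uniruled hL
  tfae_finish

theorem gt_unirational (hn : 1 ≤ n) (hK : Algebra.trdeg ℂ K = n) {c : ℕ} (hc : 3 ≤ c) {s : ℕ}
    (hs : 2 * Module.finrank L K ≤ s) (h : Tower c n (fun E _ _ => IsUnirational ℂ E n) K s) :
    [¬ GeneralType ℂ L n, GenusZero L n, ¬ KodGe ℂ L n (fun _ => False) 0,
      ¬ Psef ℂ L n (fun _ => False), IsUniruled ℂ L n, IsUnirational ℂ L n].TFAE := by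
  have hess : Algebra.EssFiniteType ℂ L := Pool.Agent.TH466.QG.ess_below (K := K)
  have hL := Pool.Agent.Y184.NT.trdeg_below (L := L) (K := K) hK
  have h2 := genus_unirational L hn hK (c := c) (s := s) (by omega) (by omega) h
  tfae_have 2 ↔ 3 := h2.out 0 1
  tfae_have 2 ↔ 4 := h2.out 0 2
  tfae_have 2 ↔ 5 := h2.out 0 3
  tfae_have 2 ↔ 6 := h2.out 0 4
  tfae_have 1 → 6 := (tower_aux hn (goodBase_unirational n) h inferInstance hK L).2 hc hs
  tfae_have 5 → 1 := not_gt_of_uniruled hL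
  tfae_finish

end

end Pool.Agent.Run7.h260.TW
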