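import Pool.Agent.Run7.h260.TW.Fin
import Pool.Agent.N162.GQ.Deg
import Pool.Agent.N78.GQ.Gon

/-!
# Towers over products of varieties of low degree, curves of large gonality and an arbitrary curve
-/

set_option autoImplicit false
set_option linter.overlappingInstances false
set_option linter.unusedSectionVars false

open FF Pool.Agent.W602.GT Module
open Pool.Agent.W619.PQ (IsUniruled)
open Pool.Agent.R882.Over (IsBase Positive GenusZero)
open Pool.Agent.N162.GQ (Factor Img deg)

namespace Pool.Agent.Run7.h260.TW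

/-- `K` is the function field, of dimension `n`, of the product of the varieties with the function
fields `F i`, `i < k`, of the types in `Factor`, with `s < g i`, and of any smooth projective curve. -/
def IsProduct (n s : ℕ) (K : Type) [Field K] [Algebra ℂ K] : Prop :=
  ∃ (k : ℕ) (m g : Fin k → ℕ) (F : Fin (k + 1) → IntermediateField ℂ K),
    IsFF ℂ (F (Fin.last k)) ∧ (∀ i : Fin k, Factor (F i.castSucc) (m i) (g i)) ∧
    ⨆ i, F i = ⊤ ∧ (∑ i, m i) + 1 = n ∧ Algebra.trdeg ℂ K = n ∧ ∀ i, s < g i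

/-- The towers over products. -/
inductive ProductTower (c n : ℕ) :
    ∀ (K : Type) [Field K] [Algebra ℂ K], ℕ → Prop
  | product {K : Type} [Field K] [Algebra ℂ K] {s : ℕ} (h : IsProduct n s K) :
      ProductTower c n K s
  | uniruled {K : Type} [Field K] [Algebra ℂ K] {s : ℕ} (h : IsUniruled ℂ K n) :
      ProductTower c n K s
  | hypersurface {K : Type} [Field K] [Algebra ℂ K] {s : ℕ} (h : Hypersurface c n s K) :
      ProductTower c n K s
  | overLowDegree {K : Type} [Field K] [Algebra ℂ K] {s : ℕ} (h : OverLowDegree n s K) :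
      ProductTower c n K s
  | cover {K : Type} [Field K] [Algebra ℂ K] {s N : ℕ} (x : Fin N → K) (base : IsBase n x)
      (pos : Positive n x s)
      (below : ProductTower c n (IntermediateField.adjoin ℂ (Set.range x))
        (s / Module.finrank (IntermediateField.adjoin ℂ (Set.range x)) K)) :
      ProductTower c n K s

theorem deg_le {K : Type} [Field K] [Algebra ℂ K] {k : ℕ} (F : Fin (k + 1) → IntermediateField ℂ K)
    (L : Type) [Field L] [Algebra L K] [FiniteDimensional L K] (i : Fin (k + 1)) :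
    deg F L i ≤ finrank L K := by
  unfold deg
  have h1 : finrank (Img F L i) (IntermediateField.adjoin (Img F L i) (F i : Set K)) ≤
      finrank (Img F L i) K :=
    Submodule.finrank_le (IntermediateField.adjoin (Img F L i) (F i : Set K)).toSubmodule
  have h2 : finrank L (Img F L i) * finrank (Img F L i) K = finrank L K :=
    Module.finrank_mul_finrank _ _ _
  have h3 : 0 < finrank L (Img F L i) := Module.finrank_pos
  refine h1.trans ?_
  rw [← h2]
  exact Nat.le_mul_of_pos_left _ h3

/-- the equivalence for varieties which are not uniruled -/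
def Dich (n : ℕ) (L : Type) [Field L] [Algebra ℂ L] : Prop :=
  [Psef ℂ L n (fun _ => False), KodGe ℂ L n (fun _ => False) (n - 1), ¬ IsUniruled ℂ L n].TFAE

theorem kodGe_mono {n a b : ℕ} {L : Type} [Field L] [Algebra ℂ L] {B : Place ℂ L → Prop}
    (hab : a ≤ b) (h : KodGe ℂ L n B b) : KodGe ℂ L n B a := by
  obtain ⟨N, hN, ω, hω, D, hD, hind⟩ := h
  refine ⟨N, hN, fun j => ω (Fin.castLE (by omega) j), fun j => hω _, D, hD, ?_⟩
  exact hind.comp (fun i : Fin a => Fin.castLE hab i) (Fin.castLE_injective hab)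

theorem dich_uniruled {n : ℕ} {L : Type} [Field L] [Algebra ℂ L] [Algebra.EssFiniteType ℂ L]
    (hL : Algebra.trdeg ℂ L = n) (h : IsUniruled ℂ L n) : Dich n L := by
  have h1 : ¬ Psef ℂ L n (fun _ => False) := fun h' =>
    (Pool.Agent.W619.Y.uniruled_neg n hL h).1 ((Pool.Agent.TH466.QG.psef_iff n).1 h')
  unfold Dich
  tfae_have 1 → 2 := fun h' => absurd h' h1
  tfae_have 2 → 3 := fun h' => absurd (psef_of_kodGe (kodGe_mono (Nat.zero_le _) h')) h1
  tfae_have 3 → 1 := fun h' => absurd h h'
  tfae_finish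

theorem dich_generalType {n : ℕ} {L : Type} [Field L] [Algebra ℂ L] [Algebra.EssFiniteType ℂ L]
    (hL : Algebra.trdeg ℂ L = n) (h : GeneralType ℂ L n) : Dich n L := by
  have h1 := Pool.Agent.R882.WR.kod_of_gt h
  have h2 : KodGe ℂ L n (fun _ => False) n := by
    obtain ⟨-, N, hN, ω, h1, h2, D, h3, h4⟩ := h
    exact ⟨N, hN, ω, fun j => ⟨h1 j, fun P hP D hD => h2 P hP j D fun i =>
      Pool.Agent.TH466.QG.derReg_of_log (hD i), fun P hP _ => h2 P hP j⟩, D, h3, h4⟩
  have h3 : Psef ℂ L n (fun _ => False) := psef_of_kodGe h1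
  unfold Dich
  tfae_have 1 → 2 := fun _ => kodGe_mono (Nat.sub_le _ _) h2
  tfae_have 2 → 3 := fun _ h' => not_gt_of_uniruled hL h' h
  tfae_have 3 → 1 := fun _ => h3
  tfae_finish

theorem product_genus {n s : ℕ} {K : Type} [Field K] [Algebra ℂ K] [Algebra.EssFiniteType ℂ K]
    (h : IsProduct n s K) (L : Type) [Field L] [Algebra ℂ L] [Algebra L K]
    [IsScalarTower ℂ L K] [FiniteDimensional L K] (hs : finrank L K ≤ s) (hg : GenusZero L n) :
    IsUniruled ℂ L n := by
  obtain ⟨k, m, g, F, hFF, hE, hF, rfl, hK, hsg⟩ := h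
  haveI := hFF
  have h1 := Pool.Agent.N162.GQ.mprod_genus (L := L) Pool.Agent.N78.GQ.gon_ hE hF hK
    fun i => lt_of_le_of_lt ((deg_le F L i.castSucc).trans hs) (hsg i)
  have h2 : (∀ ω : (Fin ((∑ i, m i) + 1) → Derivation ℂ L L) → L,
      Pool.Agent.N162.BC.GlobalForm ((∑ i, m i) + 1) ω → ∀ D, ω D = 0) ↔
        IsUniruled ℂ L ((∑ i, m i) + 1) := h1.out 0 3
  exact h2.1 fun ω hω D => hg ω hω.1 hω.2 D

theorem product_dich {n s : ℕ} {K : Type} [Field K] [Algebra ℂ K] [Algebra.EssFiniteType ℂ K]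
    (h : IsProduct n s K) (L : Type) [Field L] [Algebra ℂ L] [Algebra L K]
    [IsScalarTower ℂ L K] [FiniteDimensional L K] (hs : 2 * finrank L K ≤ s) : Dich n L := by
  obtain ⟨k, m, g, F, hFF, hE, hF, rfl, hK, hsg⟩ := h
  haveI := hFF
  exact Pool.Agent.N162.GQ.mprod_dich (L := L) Pool.Agent.N78.GQ.gon_ hE hF hK
    fun i => lt_of_le_of_lt ((Nat.mul_le_mul_left 2 (deg_le F L i.castSucc)).trans hs) (hsg i)

theorem ptower_aux {c n : ℕ} (hn : 1 ≤ n) {K : Type} [i1 : Field K] [i2 : Algebra ℂ K] {s : ℕ}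
    (h : ProductTower c n K s) : Algebra.EssFiniteType ℂ K → Algebra.trdeg ℂ K = (n : ℕ) →
    ∀ (L : Type) [Field L] [Algebra ℂ L] [Algebra L K] [IsScalarTower ℂ L K]
      [FiniteDimensional L K],
      (2 ≤ c → Module.finrank L K ≤ s → GenusZero L n → IsUniruled ℂ L n) ∧
      (3 ≤ c → 2 * Module.finrank L K ≤ s → Dich n L) := by
  have hB := goodBase_uniruled hn
  induction h with
  | @product K _ _ s h =>
    intro _ hK L _ _ _ _ _
    exact ⟨fun _ hs hg => product_genus h L hs hg, fun _ hs => product_dich h L hs⟩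
  | @uniruled K _ _ s h =>
    intro _ hK L _ _ _ _ _
    have hessL : Algebra.EssFiniteType ℂ L := Pool.Agent.TH466.QG.ess_below (K := K)
    exact ⟨fun _ _ _ => hB.desc K L h, fun _ _ =>
      dich_uniruled (Pool.Agent.Y184.NT.trdeg_below (K := K) hK) (hB.desc K L h)⟩
  | @hypersurface K _ _ s h =>
    intro hess hK L _ _ _ _ _
    have hessL : Algebra.EssFiniteType ℂ L := Pool.Agent.TH466.QG.ess_below (K := K)
    have h1 := tower_aux hn hB (Tower.hypersurface h) hess hK L
    have hL := Pool.Agent.Y184.NT.trdeg_below (K := K) (L := L) hK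
    refine ⟨h1.1, fun hc hs => ?_⟩
    by_cases hgt : GeneralType ℂ L n
    · exact dich_generalType hL hgt
    · exact dich_uniruled hL (h1.2 hc hs hgt)
  | @overLowDegree K _ _ s h =>
    intro hess hK L _ _ _ _ _
    have hessL : Algebra.EssFiniteType ℂ L := Pool.Agent.TH466.QG.ess_below (K := K)
    have h1 := tower_aux hn hB (Tower.overLowDegree (c := c) h) hess hK L
    have hL := Pool.Agent.Y184.NT.trdeg_below (K := K) (L := L) hK
    refine ⟨h1.1, fun hc hs => ?_⟩
    by_cases hgt : GeneralType ℂ L n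
    · exact dich_generalType hL hgt
    · exact dich_uniruled hL (h1.2 hc hs hgt)
  | @cover K _ _ s N x base pos below ih =>
    intro hess hK L _ _ _ _ _
    haveI := base.fin
    obtain ⟨h1, h2⟩ := Pool.Agent.R882.Over.factors_step hn base L
    have hessL : Algebra.EssFiniteType ℂ L := Pool.Agent.TH466.QG.ess_below (K := K)
    have hL := Pool.Agent.Y184.NT.trdeg_below (K := K) (L := L) hK
    have hessE : Algebra.EssFiniteType ℂ (IntermediateField.adjoin ℂ (Set.range x)) :=
      Pool.Agent.TH466.QG.ess_below (K := K)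
    have hK' : Algebra.trdeg ℂ (IntermediateField.adjoin ℂ (Set.range x)) = (n : ℕ) :=
      Pool.Agent.Y184.NT.trdeg_below (K := K) hK
    have hb : 0 < Module.finrank (IntermediateField.adjoin ℂ (Set.range x)) K :=
      Module.finrank_pos
    refine ⟨fun hc hs hg => ?_, fun hc hs => ?_⟩
    · have h3 := h1 (positive_mono pos hs) hg
      obtain ⟨j1, j2, j3, hdeg⟩ := Pool.Agent.R882.LT.factor_alg (N := 0) L h3
      refine (ih hessE hK' L).1 hc ?_ hg
      rw [Nat.le_div_iff_mul_le hb, ← hdeg]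
      exact hs
    · by_cases hgt : GeneralType ℂ L n
      · exact dich_generalType hL hgt
      have h3 := h2 (positive_mono pos hs) hgt
      obtain ⟨j1, j2, j3, hdeg⟩ := Pool.Agent.R882.LT.factor_alg (N := 0) L h3
      refine (ih hessE hK' L).2 hc ?_
      rw [Nat.le_div_iff_mul_le hb, mul_assoc, ← hdeg]
      exact hs

section

variable {n : ℕ} {K : Type} [Field K] [Algebra ℂ K] [Algebra.EssFiniteType ℂ K]
  (L : Type) [Field L] [Algebra ℂ L] [Algebra L K] [IsScalarTower ℂ L K] [FiniteDimensional L K]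

theorem ptower_genus (hn : 1 ≤ n) (hK : Algebra.trdeg ℂ K = n) {c s : ℕ} (hc : 2 ≤ c)
    (hs : Module.finrank L K ≤ s) (h : ProductTower c n K s) :
    [GenusZero L n, ¬ KodGe ℂ L n (fun _ => False) 0, ¬ Psef ℂ L n (fun _ => False),
      IsUniruled ℂ L n].TFAE := by
  have hess : Algebra.EssFiniteType ℂ L := Pool.Agent.TH466.QG.ess_below (K := K)
  exact tfae_uniruled (Pool.Agent.Y184.NT.trdeg_below (K := K) hK)
    ((ptower_aux hn h inferInstance hK L).1 hc hs)

theorem ptower_dich (hn : 1 ≤ n) (hK : Algebra.trdeg ℂ K = n) {c s : ℕ} (hc : 3 ≤ c)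
    (hs : 2 * Module.finrank L K ≤ s) (h : ProductTower c n K s) :
    [Psef ℂ L n (fun _ => False), KodGe ℂ L n (fun _ => False) (n - 1),
      ¬ IsUniruled ℂ L n].TFAE :=
  (ptower_aux hn h inferInstance hK L).2 hc hs

end

end Pool.Agent.Run7.h260.TW
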