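import Pool.Agent.R882.HT
import Pool.Agent.N162.HN.MainB
import Pool.Agent.N162.HN.Top
import Pool.Agent.N162.GP.Facts
import Pool.Agent.N162.GP.Def

/-!
# Towers of generically finite maps over smooth hypersurfaces, over varieties which are cut out by
equations of low degree, and over varieties with a given property
-/

set_option autoImplicit false
set_option linter.overlappingInstances false
set_option linter.unusedSectionVars false

open FF MvPolynomial Pool.Agent.W602.GT
open Pool.Agent.W619.PQ (IsUniruled)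
open Pool.Agent.W619.TW (IsUnirational)
open Pool.Agent.R882.Over (IsBase Positive GenusZero)
open Pool.Agent.N162.GP (LowDegree)

namespace Pool.Agent.Run7.h260.TW

/-- `K` is the function field of a smooth hypersurface `F = 0` of degree `d` in projective
`(n + 1)`-space, with generic point `x`, `x 0 = 1`, where `d ≥ 7 N + n + 6`, `d > (n + 1) N`,
`d > c (N + n - 1)` and `s < (N + 1) (d - n - N)` for some `N`. -/
def Hypersurface (c n s : ℕ) (K : Type) [Field K] [Algebra ℂ K] : Prop :=
  ∃ (d N : ℕ) (F : MvPolynomial (Fin (n + 2)) ℂ) (x : Fin (n + 2) → K),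
    7 * N + n + 6 ≤ d ∧ (n + 1) * N < d ∧ c * (N + n - 1) < d ∧ s < (N + 1) * (d - n - N) ∧
    F.IsHomogeneous d ∧ (∀ z : Fin (n + 2) → ℂ, z ≠ 0 → ∃ l, eval z (pderiv l F) ≠ 0) ∧
    Algebra.trdeg ℂ K = n ∧ x 0 = 1 ∧ aeval x F = 0 ∧
    IntermediateField.adjoin ℂ (Set.range x) = ⊤

/-- `K` is the function field of a variety with a generically finite rational map (of any degree) to
a variety `V` in projective `(M + 1)`-space, with function field `E` and generic point `x`, which is
cut out by equations of degree at most `D` and has the regular canonical forms `P(x) ω₀` for all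
forms `P` of degree `m` (`LowDegree`; for instance a smooth complete intersection of codimension at
least two), where `m ≥ 7 N + 4`, `m + M + 2 > (M + 1) N`, `m + 2 ≥ D + N` and
`s < (N + 1) (m + 2 - N)` for some `N`. -/
def OverLowDegree (n s : ℕ) (K : Type) [Field K] [Algebra ℂ K] : Prop :=
  ∃ (M m N D : ℕ) (E : IntermediateField ℂ K) (x : Fin (M + 2) → E), 1 ≤ M ∧ 7 * N + 4 ≤ m ∧
    (M + 1) * N < m + M + 2 ∧ D + N ≤ m + 2 ∧ s < (N + 1) * (m + 2 - N) ∧ LowDegree n m D x ∧
    FiniteDimensional E K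

/-- The towers. -/
inductive Tower (c n : ℕ) (Base : ∀ (K : Type) [Field K] [Algebra ℂ K], Prop) :
    ∀ (K : Type) [Field K] [Algebra ℂ K], ℕ → Prop
  | base {K : Type} [Field K] [Algebra ℂ K] {s : ℕ} (h : Base K) : Tower c n Base K s
  | hypersurface {K : Type} [Field K] [Algebra ℂ K] {s : ℕ} (h : Hypersurface c n s K) :
      Tower c n Base K s
  | overLowDegree {K : Type} [Field K] [Algebra ℂ K] {s : ℕ} (h : OverLowDegree n s K) :
      Tower c n Base K s
  | cover {K : Type} [Field K] [Algebra ℂ K] {s N : ℕ} (x : Fin N → K) (base : IsBase n x)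
      (pos : Positive n x s)
      (below : Tower c n Base (IntermediateField.adjoin ℂ (Set.range x))
        (s / Module.finrank (IntermediateField.adjoin ℂ (Set.range x)) K)) :
      Tower c n Base K s

theorem positive_mono {n N s t : ℕ} {K : Type} [Field K] [Algebra ℂ K] {x : Fin N → K}
    (h : Positive n x s) (hts : t ≤ s) : Positive n x t := by
  intro F hF
  obtain ⟨m, hm, hd⟩ := h F hF
  exact ⟨m, hts.trans hm, hd⟩

/-- The base property passes to images, and unirational varieties have it. -/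
structure GoodBase (n : ℕ) (Base : ∀ (K : Type) [Field K] [Algebra ℂ K], Prop) : Prop where
  desc : Pool.Agent.R882.HT.Descends Base
  uni : ∀ (L : Type) [Field L] [Algebra ℂ L], IsUnirational ℂ L n → Base L

theorem goodBase_uniruled {n : ℕ} (hn : 1 ≤ n) : GoodBase n (fun K _ _ => IsUniruled ℂ K n) :=
  ⟨Pool.Agent.R882.HT.descends_uniruled n, fun _ _ _ h =>
    Pool.Agent.R882.HQ.uniruled_of_unirational hn h⟩

theorem goodBase_unirational (n : ℕ) : GoodBase n (fun K _ _ => IsUnirational ℂ K n) :=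
  ⟨Pool.Agent.R882.HT.descends_unirational n, fun _ _ _ h => h⟩

theorem tower_aux {c n : ℕ} (hn : 1 ≤ n) {Base : ∀ (K : Type) [Field K] [Algebra ℂ K], Prop}
    (hB : GoodBase n Base) {K : Type} [i1 : Field K] [i2 : Algebra ℂ K] {s : ℕ}
    (h : Tower c n Base K s) : Algebra.EssFiniteType ℂ K → Algebra.trdeg ℂ K = (n : ℕ) →
    ∀ (L : Type) [Field L] [Algebra ℂ L] [Algebra L K] [IsScalarTower ℂ L K]
      [FiniteDimensional L K],
      (2 ≤ c → Module.finrank L K ≤ s → GenusZero L n → Base L) ∧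
      (3 ≤ c → 2 * Module.finrank L K ≤ s → ¬ GeneralType ℂ L n → Base L) := by
  induction h with
  | @base K _ _ s h =>
    intro _ _ L _ _ _ _ _
    exact ⟨fun _ _ _ => hB.desc K L h, fun _ _ _ => hB.desc K L h⟩
  | @hypersurface K _ _ s h =>
    intro hess hK L _ _ _ _ _
    obtain ⟨d, N, F, x, hd, hd', hd'', hs, hF, hsm, hK', hx0, hx, hgen⟩ := h
    obtain ⟨m, hmd⟩ : ∃ m, m + n + 2 = d := ⟨d - n - 2, by omega⟩
    have h1 : d - n - N = m + 2 - N := by omega
    rw [h1] at hs
    refine ⟨fun hc hr hg => hB.uni L ?_, fun hc hr hg => hB.uni L ?_⟩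
    · have h2 : 2 * (N + n - 1) < d :=
        lt_of_le_of_lt (Nat.mul_le_mul_right _ hc) hd''
      exact Pool.Agent.N162.HN.mainB hn hmd (by omega) hd' h2 hsm hF hx0 hx hgen hK L
        (lt_of_le_of_lt hr hs) hg
    · have h2 : 3 * (N + n - 1) < d :=
        lt_of_le_of_lt (Nat.mul_le_mul_right _ hc) hd''
      exact Pool.Agent.N162.HN.mainG hn hmd (by omega) hd' h2 hsm hF hx0 hx hgen hK L
        (lt_of_le_of_lt hr hs) hg
  | @overLowDegree K _ _ s h =>
    intro hess hK L _ _ _ _ _
    have hessL : Algebra.EssFiniteType ℂ L := Pool.Agent.TH466.QG.ess_below (K := K)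
    obtain ⟨M, m, N, D, E, x, hM, hm, hN, hD, hs, hlow, hfin⟩ := h
    obtain ⟨hx0, hgen, hE, hcut, ω₀, hadj⟩ := hlow
    refine ⟨fun _ hr hg => ?_, fun _ hr hg => ?_⟩
    · exfalso
      obtain ⟨ω, hω, D', hD'⟩ := Pool.Agent.N162.GP.pg_ (K := E) (K' := K) (L := L)
        Pool.Agent.N162.GP.fINX hM hm hN hD hx0 hgen hE hcut hadj Pool.Agent.N162.GP.fTRF
        Pool.Agent.N162.GP.fTRS (lt_of_le_of_lt hr hs)
      exact hD' (hg ω hω.1 hω.2 D')
    · exfalso
      exact hg (Pool.Agent.N162.GP.gt_ (K := E) (K' := K) (L := L)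
        Pool.Agent.N162.GP.fINX hM hm hN hD hx0 hgen hE hcut hadj Pool.Agent.N162.GP.fTRF
        Pool.Agent.N162.GP.fTRS Pool.Agent.N162.GP.fGPR Pool.Agent.N162.GP.fGTY
        (lt_of_le_of_lt hr hs))
  | @cover K _ _ s N x base pos below ih =>
    intro hess hK L _ _ _ _ _
    haveI := base.fin
    obtain ⟨h1, h2⟩ := Pool.Agent.R882.Over.factors_step hn base L
    have hessE : Algebra.EssFiniteType ℂ (IntermediateField.adjoin ℂ (Set.range x)) :=
      Pool.Agent.TH466.QG.ess_below (K := K)
    have hK' : Algebra.trdeg ℂ (IntermediateField.adjoin ℂ (Set.range x)) = (n : ℕ) :=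
      Pool.Agent.Y184.NT.trdeg_below (K := K) hK
    have hb : 0 < Module.finrank (IntermediateField.adjoin ℂ (Set.range x)) K :=
      Module.finrank_pos
    refine ⟨fun hc hs hg => ?_, fun hc hs hg => ?_⟩
    · have h3 := h1 (positive_mono pos hs) hg
      obtain ⟨j1, j2, j3, hdeg⟩ := Pool.Agent.R882.LT.factor_alg (N := 0) L h3
      refine (ih hessE hK' L).1 hc ?_ hg
      rw [Nat.le_div_iff_mul_le hb, ← hdeg]
      exact hs
    · have h3 := h2 (positive_mono pos hs) hg
      obtain ⟨j1, j2, j3, hdeg⟩ := Pool.Agent.R882.LT.factor_alg (N := 0) L h3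
      refine (ih hessE hK' L).2 hc ?_ hg
      rw [Nat.le_div_iff_mul_le hb, mul_assoc, ← hdeg]
      exact hs

end Pool.Agent.Run7.h260.TW
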